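import Pool.Agent.H48.ER.Targets

/-!
# MP_816b90_co, row PLU: both attachments are single vertices
-/

set_option autoImplicit false

namespace Pool.Agent.H75.ER

open Pool.Agent.H48.ER

variable {V : Type} {G : SimpleGraph V}

theorem AU_rev {c : V} {n : ℕ} {x y g : V} {R : Set V} (h : AU G c n x y R g) :
    AU G c n y x R g := by
  obtain ⟨i, j, R1, R2, h1, h2, h3, h4, h5, h6, h7⟩ := h
  refine ⟨j, i, R2, R1, h2.rev, h1.rev, by omega, by rw [Set.union_comm]; exact h4,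
    by rw [Set.inter_comm]; exact h5, ?_, h7⟩
  intro u hu v hv e
  exact h6 v hv u hu e.symm

theorem third : ∀ i j : Fin 3, i ≠ j → ∃ k, k ≠ i ∧ k ≠ j := by decide

theorem swp {A B : Set V} {g x y : V}
    (h : ∀ u ∈ A, ∀ v ∈ B, u ≠ g → v ≠ g → u ≠ v ∧ (G.Adj u v ↔ u = x ∧ v = y)) :
    ∀ u ∈ B, ∀ v ∈ A, u ≠ g → v ≠ g → u ≠ v ∧ (G.Adj u v ↔ u = y ∧ v = x) := by
  intro u hu v hv h1 h2
  have h3 := h v hv u hu h2 h1
  refine ⟨h3.1.symm, ?_⟩
  rw [SimpleGraph.adj_comm, h3.2]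
  exact and_comm

/-- a pyramid given by three explicit paths -/
theorem pyr3 (hPYR : T_PYR) (hG : NOH G) {c b1 b2 b3 : V} {m1 m2 m3 : ℕ} {R1 R2 R3 : Set V}
    (p1 : IP G m1 c b1 R1) (p2 : IP G m2 c b2 R2) (p3 : IP G m3 c b3 R3)
    (o1 : 1 ≤ m1) (o2 : 2 ≤ m2) (o3 : 2 ≤ m3)
    (x12 : ∀ u ∈ R1, ∀ v ∈ R2, u ≠ c → v ≠ c → u ≠ v ∧ (G.Adj u v ↔ u = b1 ∧ v = b2))
    (x13 : ∀ u ∈ R1, ∀ v ∈ R3, u ≠ c → v ≠ c → u ≠ v ∧ (G.Adj u v ↔ u = b1 ∧ v = b3))
    (x23 : ∀ u ∈ R2, ∀ v ∈ R3, u ≠ c → v ≠ c → u ≠ v ∧ (G.Adj u v ↔ u = b2 ∧ v = b3)) :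
    False := by
  have x21 := swp x12
  have x31 := swp x13
  have x32 := swp x23
  refine hPYR V G c ![b1, b2, b3] ![m1, m2, m3] ![R1, R2, R3] hG ?_ ?_ ?_ ?_
  · intro i
    fin_cases i
    · exact p1
    · exact p2
    · exact p3
  · intro i
    fin_cases i
    · exact o1
    · exact le_trans (by omega) o2
    · exact le_trans (by omega) o3
  · have o2' : m2 ≠ 1 := by omega
    have o3' : m3 ≠ 1 := by omega
    intro i j hij
    fin_cases i <;> fin_cases j
    · exact absurd rfl hij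
    · exact fun h => o2' h.2
    · exact fun h => o3' h.2
    · exact fun h => o2' h.1
    · exact absurd rfl hij
    · exact fun h => o2' h.1
    · exact fun h => o3' h.1
    · exact fun h => o3' h.1
    · exact absurd rfl hij
  · intro i j hij
    fin_cases i <;> fin_cases j
    · exact absurd rfl hij
    · exact x12
    · exact x13
    · exact x21
    · exact absurd rfl hij
    · exact x23
    · exact x31
    · exact x32
    · exact absurd rfl hij

/-- one of the two attachments is at the end -/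
theorem plu_step (hPYR : T_PYR) {a b : Fin 3 → V} {n : Fin 3 → ℕ} {P : Fin 3 → Set V}
    {i j : Fin 3} {l : ℕ} {d d' g h : V} {R : Set V} (hG : NOH G) (hP : Prism G a b n P)
    (hij : i ≠ j) (hC : Cnr G P i j l d d' R) (h1 : AU G d (n i) (a i) (b i) (P i) g)
    (h2 : AU G d' (n j) (a j) (b j) (P j) h) : g = a i ∨ h = b j := by
  obtain ⟨k, hki, hkj⟩ := third i j hij
  by_contra hcon
  rw [not_or] at hcon
  obtain ⟨hga, hhb⟩ := hcon
  obtain ⟨i1, j1, R1, R2, p1, p2, e1, e2, e3, e4, e5⟩ := h1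
  obtain ⟨s1, s2, T1, T2, q1, q2, f1, f2, f3, f4, f5⟩ := h2
  obtain ⟨c1, c2, c3⟩ := hC
  have hR1 : ∀ u ∈ R1, u ∈ P i := fun u hu => by rw [← e2]; exact Or.inl hu
  have hR2 : ∀ u ∈ R2, u ∈ P i := fun u hu => by rw [← e2]; exact Or.inr hu
  have hT1 : ∀ u ∈ T1, u ∈ P j := fun u hu => by rw [← f2]; exact Or.inl hu
  have hgi : g ∈ P i := hR1 g p1.right_mem
  have hhj : h ∈ P j := hT1 h q1.right_mem
  have hdg : G.Adj d g := (e5 g hgi).2 rfl
  have hdh : G.Adj d' h := (f5 h hhj).2 rfl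
  have bT : ∀ u ∈ T1, u ≠ b j := by
    intro u hu e
    have h3 : b j ∈ T1 ∩ T2 := ⟨e ▸ hu, q2.right_mem⟩
    rw [f3] at h3
    exact hhb (Set.mem_singleton_iff.1 h3).symm
  have aR : ∀ u ∈ R2, u ≠ a i := by
    intro u hu e
    have h3 : a i ∈ R1 ∩ R2 := ⟨p1.left_mem, e ▸ hu⟩
    rw [e3] at h3
    exact hga (Set.mem_singleton_iff.1 h3).symm
  have bR : ∀ u ∈ R1, u ≠ g → u ≠ b i := by
    intro u hu hug e
    have h3 : u ∈ R1 ∩ R2 := ⟨hu, e ▸ p2.right_mem⟩
    rw [e3] at h3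
    exact hug (Set.mem_singleton_iff.1 h3)
  have RR : ∀ u ∈ R1, ∀ v ∈ R2, u ≠ g → v ≠ g → u ≠ v := by
    intro u hu v hv hug _ e
    have h3 : u ∈ R1 ∩ R2 := ⟨hu, e ▸ hv⟩
    rw [e3] at h3
    exact hug (Set.mem_singleton_iff.1 h3)
  have hi1 : 1 ≤ i1 := by
    rcases Nat.eq_zero_or_pos i1 with h0 | h0
    · rw [h0] at p1
      exact absurd p1.eq_of_zero.1.symm hga
    · exact h0
  have hnk : 1 ≤ n k := hP.pos k
  -- second path
  have hd2 : Disjoint R T1 := by
    rw [Set.disjoint_left]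
    intro u hu hu'
    exact c2 u hu (mem_ver (hT1 u hu'))
  have x2 : XE G R T1 d' h := by
    intro u hu v hv
    constructor
    · intro hadj
      rcases c3 u hu v (mem_ver (hT1 v hv)) hadj with ⟨_, h4⟩ | ⟨h3, h4⟩
      · exact absurd (hP.rung h4 (hT1 v hv)) hij
      · subst h3
        exact ⟨rfl, (f5 v h4).1 hadj⟩
    · rintro ⟨h3, h4⟩
      rw [h3, h4]
      exact hdh
  have t1 : IP G (l + s1 + 1) d (a j) (R ∪ T1) := c1.append q1.rev hd2 x2
  have hgR : g ∉ R ∪ T1 := by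
    rintro (h3 | h3)
    · exact c2 g h3 (mem_ver hgi)
    · exact hij (hP.rung hgi (hT1 g h3))
  have hga2 : ∀ w ∈ R ∪ T1, G.Adj g w ↔ w = d := by
    rintro w (h3 | h3)
    · constructor
      · intro hadj
        rcases c3 w h3 g (mem_ver hgi) hadj.symm with ⟨h4, _⟩ | ⟨_, h4⟩
        · exact h4
        · exact absurd (hP.rung hgi h4) hij
      · intro h4
        rw [h4]
        exact hdg.symm
    · constructor
      · intro hadj
        rcases (hP.adj i j hij g hgi w (hT1 w h3)).1 hadj with ⟨h4, _⟩ | ⟨_, h4⟩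
        · exact absurd h4 hga
        · exact absurd h4 (bT w h3)
      · intro h4
        exact absurd (mem_ver (hT1 w h3)) (h4 ▸ c2 d c1.left_mem)
  have t2 : IP G (l + s1 + 1 + 1) g (a j) (insert g (R ∪ T1)) := t1.cons hgR hga2
  -- third path
  have hd3 : Disjoint R2 (P k) := by
    rw [Set.disjoint_left]
    intro u hu hu'
    exact hki (hP.rung hu' (hR2 u hu))
  have x3 : XE G R2 (P k) (b i) (b k) := by
    intro u hu v hv
    rw [hP.adj i k hki.symm u (hR2 u hu) v hv]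
    constructor
    · rintro (⟨h3, _⟩ | h3)
      · exact absurd h3 (aR u hu)
      · exact h3
    · exact fun h3 => Or.inr h3
  have t3 : IP G (j1 + n k + 1) g (a k) (R2 ∪ P k) := p2.append (hP.ip k).rev hd3 x3
  refine pyr3 hPYR hG p1.rev t2 t3 hi1 (by omega) (by omega) ?_ ?_ ?_
  · intro u hu v hv hug hvg
    rcases hv with hv | hv | hv
    · exact absurd hv hvg
    · refine ⟨fun e => c2 v hv (e ▸ mem_ver (hR1 u hu)), ?_⟩
      constructor
      · intro hadj
        rcases c3 v hv u (mem_ver (hR1 u hu)) hadj.symm with ⟨h3, h4⟩ | ⟨_, h4⟩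
        · exact absurd ((e5 u h4).1 (h3 ▸ hadj.symm)) hug
        · exact absurd (hP.rung (hR1 u hu) h4) hij
      · rintro ⟨_, h4⟩
        exact absurd (mem_ver (hP.a_mem j)) (h4 ▸ c2 v hv)
    · refine ⟨hP.ne_of_mem hij (hR1 u hu) (hT1 v hv), ?_⟩
      rw [hP.adj i j hij u (hR1 u hu) v (hT1 v hv)]
      constructor
      · rintro (h3 | ⟨h3, _⟩)
        · exact h3
        · exact absurd h3 (bR u hu hug)
      · exact fun h3 => Or.inl h3
  · intro u hu v hv hug hvg
    rcases hv with hv | hv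
    · refine ⟨RR u hu v hv hug hvg, ?_⟩
      constructor
      · intro hadj
        exact absurd hadj (e4 u ⟨hu, hug⟩ v ⟨hv, hvg⟩)
      · rintro ⟨_, h4⟩
        exact absurd (hP.rung (hP.a_mem k) (h4 ▸ hR2 v hv)) hki
    · refine ⟨hP.ne_of_mem hki.symm (hR1 u hu) hv, ?_⟩
      rw [hP.adj i k hki.symm u (hR1 u hu) v hv]
      constructor
      · rintro (h3 | ⟨h3, _⟩)
        · exact h3
        · exact absurd h3 (bR u hu hug)
      · exact fun h3 => Or.inl h3
  · intro u hu v hv hug hvg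
    rcases hu with hu | hu | hu
    · exact absurd hu hug
    · have hvv : v ∈ ver P := by
        rcases hv with hv | hv
        · exact mem_ver (hR2 v hv)
        · exact mem_ver hv
      refine ⟨fun e => c2 u hu (e ▸ hvv), ?_⟩
      constructor
      · intro hadj
        rcases c3 u hu v hvv hadj with ⟨h3, h4⟩ | ⟨_, h4⟩
        · exact absurd ((e5 v h4).1 (h3 ▸ hadj)) hvg
        · rcases hv with hv | hv
          · exact absurd (hP.rung (hR2 v hv) h4) hij
          · exact absurd (hP.rung hv h4) hkj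
      · rintro ⟨h4, _⟩
        exact absurd (mem_ver (hP.a_mem j)) (h4 ▸ c2 u hu)
    · rcases hv with hv | hv
      · refine ⟨hP.ne_of_mem hij.symm (hT1 u hu) (hR2 v hv), ?_⟩
        rw [hP.adj j i hij.symm u (hT1 u hu) v (hR2 v hv)]
        constructor
        · rintro (⟨_, h3⟩ | ⟨h3, _⟩)
          · exact absurd h3 (aR v hv)
          · exact absurd h3 (bT u hu)
        · rintro ⟨_, h4⟩
          exact absurd (hP.rung (hP.a_mem k) (h4 ▸ hR2 v hv)) hki
      · refine ⟨hP.ne_of_mem hkj.symm (hT1 u hu) hv, ?_⟩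
        rw [hP.adj j k hkj.symm u (hT1 u hu) v hv]
        constructor
        · rintro (h3 | ⟨h3, _⟩)
          · exact h3
          · exact absurd h3 (bT u hu)
        · exact fun h3 => Or.inl h3

theorem pf_PLU (hPYR : T_PYR) : T_PLU := by
  intro V G a b n P i j l d d' g h R hG hP hij hC h1 h2
  have s1 := plu_step hPYR hG hP hij hC h1 h2
  have s2 := plu_step hPYR hG hP.flip hij hC (AU_rev h1) (AU_rev h2)
  have hg : G.Adj d g := by
    obtain ⟨i1, j1, R1, R2, p1, p2, e1, e2, e3, e4, e5⟩ := h1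
    exact (e5 g (by rw [← e2]; exact Or.inl p1.right_mem)).2 rfl
  have hh : G.Adj d' h := by
    obtain ⟨i1, j1, R1, R2, p1, p2, e1, e2, e3, e4, e5⟩ := h2
    exact (e5 h (by rw [← e2]; exact Or.inl p1.right_mem)).2 rfl
  rcases s1 with e1 | e1
  · rcases s2 with e2 | e2
    · exact absurd (e1.symm.trans e2) (hP.a_ne_b i i)
    · exact Or.inl ⟨e1 ▸ hg, e2 ▸ hh⟩
  · rcases s2 with e2 | e2
    · exact Or.inr ⟨e2 ▸ hg, e1 ▸ hh⟩
    · exact absurd (e2.symm.trans e1) (hP.a_ne_b j j)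

end Pool.Agent.H75.ER
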